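import Pool.Agent.Helper22.FP.Goals

/-!
# Packet DSUM of MP_b440f6_pr (FP): summation over the data
-/

open scoped ENNReal
open Finset Filter Topology

namespace Pool.Agent.Helper60.FP

open Pool.Agent.Helper98.Saw hiding iv
open Pool.Agent.Helper92.Eps
open Pool.Agent.Helper22.SB
open Pool.Agent.Helper22.FP
open Pool.Agent.Helper96.KP (Good S0)

lemma iv_t {P : Prop} {x : ℝ≥0∞} (h : P) : iv P x = x := by unfold iv; exact if_pos h

lemma iv_f {P : Prop} {x : ℝ≥0∞} (h : ¬ P) : iv P x = 0 := by unfold iv; exact if_neg h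

/-- The sum over the lists of length `k` of a product. -/
lemma tsum_len {α : Type} (f : α → ℝ≥0∞) (k : ℕ) :
    ∑' l : List α, iv (l.length = k) ((l.map f).prod) = (∑' a, f a) ^ k := by
  induction k with
  | zero =>
    rw [pow_zero, tsum_eq_single ([] : List α)]
    · rw [iv_t (by simp)]
      simp
    · intro l hl
      rw [iv_f]
      intro h
      exact hl (List.length_eq_zero_iff.1 h)
  | succ k ih =>
    have hinj : Function.Injective (fun p : α × List α => p.1 :: p.2) := by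
      rintro ⟨a, l⟩ ⟨b, m⟩ h
      simp only [List.cons.injEq] at h
      rw [Prod.mk.injEq]
      exact h
    have h1 : ∑' p : α × List α, (fun l : List α => iv (l.length = k + 1) ((l.map f).prod))
        (p.1 :: p.2) = ∑' l : List α, iv (l.length = k + 1) ((l.map f).prod) := by
      apply hinj.tsum_eq (f := fun l : List α => iv (l.length = k + 1) ((l.map f).prod))
      intro l hl
      rw [Function.mem_support] at hl
      cases l with
      | nil =>
        exfalso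
        apply hl
        exact iv_f (by simp)
      | cons a l => exact ⟨(a, l), rfl⟩
    rw [← h1, ENNReal.tsum_prod (f := fun (a : α) (l : List α) =>
      iv ((a :: l).length = k + 1) (((a :: l).map f).prod)), pow_succ', ← ih,
      ← ENNReal.tsum_mul_right]
    refine tsum_congr (fun a => ?_)
    rw [← ENNReal.tsum_mul_left]
    refine tsum_congr (fun l => ?_)
    by_cases h : l.length = k
    · rw [iv_t (by simp [h]), iv_t h, List.map_cons, List.prod_cons]
    · rw [iv_f (by simp [h]), iv_f h, mul_zero]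

lemma tsum_len_le {α : Type} (f : α → ℝ≥0∞) (k : ℕ) :
    ∑' l : List α, iv (l.length ≤ k) ((l.map f).prod) ≤
      ∑ j ∈ range (k + 1), (∑' a, f a) ^ j := by
  have h1 : ∀ l : List α, iv (l.length ≤ k) ((l.map f).prod) ≤
      ∑ j ∈ range (k + 1), iv (l.length = j) ((l.map f).prod) := by
    intro l
    by_cases h : l.length ≤ k
    · rw [iv_t h]
      have h2 : l.length ∈ range (k + 1) := mem_range.2 (by omega)
      refine le_trans (le_of_eq ?_) (Finset.single_le_sum (f := fun j =>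
        iv (l.length = j) ((l.map f).prod)) (fun _ _ => zero_le) h2)
      exact (iv_t rfl).symm
    · rw [iv_f h]
      exact zero_le
  calc _ ≤ ∑' l : List α, ∑ j ∈ range (k + 1), iv (l.length = j) ((l.map f).prod) :=
        ENNReal.tsum_le_tsum h1
    _ = ∑ j ∈ range (k + 1), ∑' l : List α, iv (l.length = j) ((l.map f).prod) := by
        rw [Summable.tsum_finsetSum (fun _ _ => ENNReal.summable)]
    _ = _ := Finset.sum_congr rfl (fun j _ => tsum_len f j)

lemma bd_nonneg {C : ℝ} (hC : 1 ≤ C) (m w Λ : ℕ) (d : LD) : 0 ≤ bd C m w Λ d := by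
  unfold bd
  have := c2_pos
  have h1 : (0 : ℝ) ≤ max (d.r : ℝ) 1 := le_trans zero_le_one (le_max_right _ _)
  positivity

lemma wt1_nonneg {C : ℝ} (hC : 1 ≤ C) (m w Λ : ℕ) (d : LD) : 0 ≤ wt1 C m w Λ d := by
  unfold wt1
  have := bd_nonneg hC m w Λ d
  positivity

lemma prod_wt1 (C : ℝ) (m w Λ : ℕ) (ds : List LD) :
    (ds.map (wt1 C m w Λ)).prod = (ds.map (bd C m w Λ)).prod *
      Real.exp (-(((ds.map sz).sum : ℕ) : ℝ) / Λ) * Real.exp (-(ds.map (ls w)).sum) *
      2 ^ (40 * (Λ / (KK * K3)) * (ds.map (fun d => d.packs.length)).sum) := by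
  induction ds with
  | nil => simp
  | cons d ds ih =>
    rw [List.map_cons, List.prod_cons, ih, List.map_cons, List.prod_cons, List.map_cons,
      List.sum_cons, List.map_cons, List.sum_cons, List.map_cons, List.sum_cons]
    unfold wt1
    have e1 : -((sz d + (ds.map sz).sum : ℕ) : ℝ) / Λ = -((sz d : ℝ) / Λ) +
        -(((ds.map sz).sum : ℕ) : ℝ) / Λ := by
      push_cast
      ring
    have e2 : -(ls w d + (ds.map (ls w)).sum) = -ls w d + -(ds.map (ls w)).sum := by ring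
    rw [e1, e2, Real.exp_add, Real.exp_add, mul_add, pow_add]
    ring

lemma prod_f {C : ℝ} (hC : 1 ≤ C) (m w Λ : ℕ) (ds : List LD) (h : ∀ d ∈ ds, LDok w Λ d) :
    (ds.map (fun d => iv (LDok w Λ d) (qx⁻¹ * ENNReal.ofReal (wt1 C m w Λ d)))).prod =
      (qx⁻¹) ^ ds.length * ENNReal.ofReal ((ds.map (wt1 C m w Λ)).prod) := by
  induction ds with
  | nil => simp
  | cons d ds ih =>
    rw [List.map_cons, List.prod_cons, ih (fun d' hd' => h d' (List.mem_cons_of_mem _ hd')),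
      iv_t (h d List.mem_cons_self), List.length_cons, List.map_cons, List.prod_cons,
      ENNReal.ofReal_mul (wt1_nonneg hC m w Λ d), pow_succ]
    ring

/-- Exponential against polynomial. -/
lemma poly_exp (c : ℝ) (hc : 0 < c) (m : ℕ) : ∃ q0 : ℕ, ∀ q ≥ q0,
    (Real.exp 1003 * (c * ((q : ℝ) + 1) ^ (m + 1)) ^ 100) ^ 24 ≤ (2 : ℝ) ^ (40 * q) := by
  set k := (m + 1) * 100 * 24 with hk
  have h1 := tendsto_pow_const_div_const_pow_of_one_lt k (r := (2 : ℝ) ^ 40) (by norm_num)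
  have h2 : Tendsto (fun q : ℕ => (((q + 1 : ℕ) : ℝ)) ^ k / ((2 : ℝ) ^ 40) ^ (q + 1)) atTop
      (𝓝 0) := h1.comp (tendsto_add_atTop_nat 1)
  set M : ℝ := Real.exp 1003 ^ 24 * (c ^ 100) ^ 24 * 2 ^ 40 with hM
  have hMpos : 0 < M := by positivity
  have h3 := h2.eventually (gt_mem_nhds (show (0 : ℝ) < M⁻¹ by positivity))
  obtain ⟨q0, hq0⟩ := eventually_atTop.1 h3
  refine ⟨q0, fun q hq => ?_⟩
  have h4 := hq0 q hq
  rw [div_lt_iff₀ (by positivity)] at h4
  have h5 : M * ((q + 1 : ℕ) : ℝ) ^ k ≤ ((2 : ℝ) ^ 40) ^ (q + 1) := by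
    calc M * ((q + 1 : ℕ) : ℝ) ^ k ≤ M * (M⁻¹ * ((2 : ℝ) ^ 40) ^ (q + 1)) :=
          mul_le_mul_of_nonneg_left h4.le hMpos.le
      _ = _ := by rw [← mul_assoc, mul_inv_cancel₀ hMpos.ne', one_mul]
  have h6 : ((2 : ℝ) ^ 40) ^ (q + 1) = 2 ^ (40 * q) * 2 ^ 40 := by
    rw [← pow_mul, mul_add, mul_one, pow_add]
  rw [h6, hM] at h5
  have h7 : (Real.exp 1003 * (c * ((q : ℝ) + 1) ^ (m + 1)) ^ 100) ^ 24 * 2 ^ 40 =
      Real.exp 1003 ^ 24 * (c ^ 100) ^ 24 * 2 ^ 40 * ((q + 1 : ℕ) : ℝ) ^ k := by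
    rw [hk, pow_mul, pow_mul]
    push_cast
    ring
  have h8 : (0 : ℝ) < 2 ^ 40 := by positivity
  rw [← h7] at h5
  exact le_of_mul_le_mul_right h5 h8

theorem DSUM (hCHAIN : CHAIN_stmt) (hFONE : FONE_stmt) : DSUM_stmt := by
  classical
  intro β hβ
  obtain ⟨C, m, J0, hC, hch⟩ := hCHAIN β hβ
  obtain ⟨C', Λ1, hfo⟩ := hFONE C m hC
  set K : ℕ := KK * K3 with hK
  have hK1 : 1 ≤ K := by rw [hK, KK_eq, K3_eq]; norm_num
  set c : ℝ := (1 + xc⁻¹ * |C'|) * (K : ℝ) ^ (m + 1) with hc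
  have hxc := xc_pos
  have hKr : (1 : ℝ) ≤ K := by exact_mod_cast hK1
  have hcpos : 0 < c := by positivity
  obtain ⟨q0, hq0⟩ := poly_exp c hcpos m
  refine ⟨max (10 ^ 40) (max Λ1 (K * q0)), fun Λ hΛ => ?_⟩
  have hΛ1 : 10 ^ 40 ≤ Λ := le_trans (le_max_left _ _) hΛ
  have hΛ2 : Λ1 ≤ Λ := le_trans (le_trans (le_max_left _ _) (le_max_right _ _)) hΛ
  have hΛ3 : K * q0 ≤ Λ := le_trans (le_trans (le_max_right _ _) (le_max_right _ _)) hΛ
  set q : ℕ := Λ / K with hq
  have hqq : q0 ≤ q := by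
    rw [hq, Nat.le_div_iff_mul_le (by omega)]
    rw [mul_comm]
    exact hΛ3
  have hΛq : Λ ≤ K * (q + 1) := by
    have := Nat.lt_mul_div_succ Λ (show 0 < K by omega)
    rw [← hq] at this
    exact this.le
  set D : ℝ := max 1 (xc⁻¹ * (C' * (Λ : ℝ) ^ (m + 1))) with hD
  have hD1 : 1 ≤ D := le_max_left _ _
  have hD2 : D ≤ c * ((q : ℝ) + 1) ^ (m + 1) := by
    have e1 : (1 : ℝ) ≤ ((q : ℝ) + 1) ^ (m + 1) := by
      apply one_le_pow₀
      have : (0 : ℝ) ≤ q := Nat.cast_nonneg q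
      linarith
    have e2 : (1 : ℝ) ≤ (K : ℝ) ^ (m + 1) := one_le_pow₀ hKr
    have e3 : (Λ : ℝ) ≤ K * ((q : ℝ) + 1) := by exact_mod_cast hΛq
    have e4 : (Λ : ℝ) ^ (m + 1) ≤ (K : ℝ) ^ (m + 1) * ((q : ℝ) + 1) ^ (m + 1) := by
      rw [← mul_pow]
      exact pow_le_pow_left₀ (Nat.cast_nonneg _) e3 _
    have e5 : 1 ≤ (K : ℝ) ^ (m + 1) * ((q : ℝ) + 1) ^ (m + 1) := by
      calc (1 : ℝ) = 1 * 1 := by ring
        _ ≤ _ := mul_le_mul e2 e1 zero_le_one (by positivity)
    rw [hD, hc]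
    apply max_le
    · calc (1 : ℝ) ≤ (K : ℝ) ^ (m + 1) * ((q : ℝ) + 1) ^ (m + 1) := e5
        _ ≤ (1 + xc⁻¹ * |C'|) * ((K : ℝ) ^ (m + 1) * ((q : ℝ) + 1) ^ (m + 1)) := by
            apply le_mul_of_one_le_left (by positivity)
            have : 0 ≤ xc⁻¹ * |C'| := by positivity
            linarith
        _ = _ := by ring
    · calc xc⁻¹ * (C' * (Λ : ℝ) ^ (m + 1)) ≤ xc⁻¹ * (|C'| * (Λ : ℝ) ^ (m + 1)) := by
            apply mul_le_mul_of_nonneg_left _ (by positivity)
            exact mul_le_mul_of_nonneg_right (le_abs_self _) (by positivity)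
        _ ≤ xc⁻¹ * (|C'| * ((K : ℝ) ^ (m + 1) * ((q : ℝ) + 1) ^ (m + 1))) := by
            apply mul_le_mul_of_nonneg_left _ (by positivity)
            exact mul_le_mul_of_nonneg_left e4 (abs_nonneg _)
        _ ≤ (1 + xc⁻¹ * |C'|) * (K : ℝ) ^ (m + 1) * ((q : ℝ) + 1) ^ (m + 1) := by
            have : 0 ≤ (K : ℝ) ^ (m + 1) * ((q : ℝ) + 1) ^ (m + 1) := by positivity
            nlinarith
  have hkey : (Real.exp 1003 * D ^ 100) ^ 24 ≤ (2 : ℝ) ^ (40 * q) := by
    refine le_trans ?_ (hq0 q hqq)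
    apply pow_le_pow_left₀ (by positivity)
    apply mul_le_mul_of_nonneg_left _ (Real.exp_pos _).le
    exact pow_le_pow_left₀ (by linarith) hD2 _
  refine ⟨J0, 103 * D ^ 2, by positivity, ?_⟩
  intro n J N g A hA hG hJ hN hNg
  set w : ℕ := 2 ^ J with hw
  have hw1 : 1 ≤ w := Nat.one_le_two_pow
  set f : LD → ℝ≥0∞ := fun d =>
    iv (LDok w Λ d) (qx⁻¹ * ENNReal.ofReal (wt1 C m w Λ d)) with hf
  have hqx : qx⁻¹ = ENNReal.ofReal xc⁻¹ := by
    unfold qx
    rw [ENNReal.ofReal_inv_of_pos hxc]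
  have hsumf : ∑' d, f d ≤ ENNReal.ofReal D := by
    have h1 : ∑' d, f d = qx⁻¹ * ∑' d, iv (LDok w Λ d) (ENNReal.ofReal (wt1 C m w Λ d)) := by
      rw [← ENNReal.tsum_mul_left]
      refine tsum_congr (fun d => ?_)
      simp only [hf]
      by_cases h : LDok w Λ d
      · rw [iv_t h, iv_t h]
      · rw [iv_f h, iv_f h, mul_zero]
    rw [h1]
    calc qx⁻¹ * ∑' d, iv (LDok w Λ d) (ENNReal.ofReal (wt1 C m w Λ d)) ≤
          qx⁻¹ * ENNReal.ofReal (C' * (Λ : ℝ) ^ (m + 1)) := by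
          gcongr
          exact hfo Λ w hΛ2 hw1
      _ = ENNReal.ofReal (xc⁻¹ * (C' * (Λ : ℝ) ^ (m + 1))) := by
          rw [hqx, ← ENNReal.ofReal_mul (by positivity)]
      _ ≤ ENNReal.ofReal D := ENNReal.ofReal_le_ofReal (le_max_right _ _)
  -- the constant of one list
  set Y : ℝ := (2 : ℝ) ^ (40 * q) with hY
  have hYpos : 0 < Y := by positivity
  set K0 : ℝ := Real.exp (1001 * N) * (Y ^ g)⁻¹ with hK0
  have hK0pos : 0 ≤ K0 := by positivity
  have hΛpos : (0 : ℝ) < Λ := by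
    have : 0 < Λ := lt_of_lt_of_le (by norm_num) hΛ1
    exact_mod_cast this
  have hone : ∀ ds : List LD, Bud w Λ N g ds →
      (ds.map (bd C m w Λ)).prod ≤ K0 * (ds.map (wt1 C m w Λ)).prod := by
    intro ds hb
    have hbd : 0 ≤ (ds.map (bd C m w Λ)).prod := by
      apply List.prod_nonneg
      intro x hx
      obtain ⟨d, _, rfl⟩ := List.mem_map.1 hx
      exact bd_nonneg hC m w Λ d
    rw [prod_wt1, hb.packs]
    have h1 : Real.exp (-(1000 * (N : ℝ))) ≤
        Real.exp (-(((ds.map sz).sum : ℕ) : ℝ) / Λ) := by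
      apply Real.exp_le_exp.2
      rw [le_div_iff₀ hΛpos]
      have h2 : (((ds.map sz).sum : ℕ) : ℝ) ≤ 1000 * Λ * N := by exact_mod_cast hb.size
      nlinarith
    have h2 : Real.exp (-(N : ℝ)) ≤ Real.exp (-(ds.map (ls w)).sum) := by
      apply Real.exp_le_exp.2
      have h3 := hb.loss
      have h4 : (10 : ℝ) ^ 6 ≤ Λ := by
        have : 10 ^ 6 ≤ Λ := le_trans (by norm_num) hΛ1
        exact_mod_cast this
      have h5 : (ds.map (ls w)).sum * Λ ≤ Λ * N :=
        h3.trans (mul_le_mul_of_nonneg_right h4 (Nat.cast_nonneg _))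
      have h6 : (ds.map (ls w)).sum ≤ N := by
        by_contra hcon
        push Not at hcon
        have := mul_lt_mul_of_pos_right hcon hΛpos
        linarith
      linarith
    have h3 : (2 : ℝ) ^ (40 * (Λ / (KK * K3)) * g) = Y ^ g := by
      rw [hY, ← pow_mul, hq, hK]
    rw [h3]
    have h4 : Real.exp (-(1000 * (N : ℝ))) * Real.exp (-(N : ℝ)) ≤
        Real.exp (-(((ds.map sz).sum : ℕ) : ℝ) / Λ) * Real.exp (-(ds.map (ls w)).sum) :=
      mul_le_mul h1 h2 (Real.exp_pos _).le (Real.exp_pos _).le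
    have h5 : Real.exp (1001 * N) * (Real.exp (-(1000 * (N : ℝ))) * Real.exp (-(N : ℝ))) = 1 := by
      rw [← Real.exp_add, ← Real.exp_add, ← Real.exp_zero]
      congr 1
      ring
    have h6 : 1 ≤ Real.exp (1001 * N) * (Real.exp (-(((ds.map sz).sum : ℕ) : ℝ) / Λ) *
        Real.exp (-(ds.map (ls w)).sum)) := by
      rw [← h5]
      exact mul_le_mul_of_nonneg_left h4 (Real.exp_pos _).le
    have h7 : (Y ^ g)⁻¹ * Y ^ g = 1 := inv_mul_cancel₀ (by positivity)
    calc (ds.map (bd C m w Λ)).prod = (ds.map (bd C m w Λ)).prod * 1 := by ring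
      _ ≤ (ds.map (bd C m w Λ)).prod * (Real.exp (1001 * N) *
          (Real.exp (-(((ds.map sz).sum : ℕ) : ℝ) / Λ) * Real.exp (-(ds.map (ls w)).sum))) :=
          mul_le_mul_of_nonneg_left h6 hbd
      _ = (ds.map (bd C m w Λ)).prod * (Real.exp (1001 * N) *
          (Real.exp (-(((ds.map sz).sum : ℕ) : ℝ) / Λ) * Real.exp (-(ds.map (ls w)).sum))) *
          ((Y ^ g)⁻¹ * Y ^ g) := by rw [h7, mul_one]
      _ = _ := by rw [hK0]; ring
  -- one term
  have hterm : ∀ ds : List LD,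
      iv (Bud w Λ N g ds) ((qx⁻¹) ^ ds.length * ZC n w Λ A ds 0 []) ≤
      (S0 w ^ 2 * ENNReal.ofReal K0) * iv (ds.length ≤ 100 * N + 2) ((ds.map f).prod) := by
    intro ds
    by_cases hb : Bud w Λ N g ds
    · rw [iv_t hb, iv_t hb.len, hf, prod_f hC m w Λ ds hb.ok]
      have h1 := hch n Λ J A hA hG hJ hΛ1 ds hb.ok
      have h2 : ENNReal.ofReal ((ds.map (bd C m w Λ)).prod) ≤
          ENNReal.ofReal K0 * ENNReal.ofReal ((ds.map (wt1 C m w Λ)).prod) := by
        rw [← ENNReal.ofReal_mul hK0pos]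
        exact ENNReal.ofReal_le_ofReal (hone ds hb)
      calc (qx⁻¹) ^ ds.length * ZC n w Λ A ds 0 [] ≤ (qx⁻¹) ^ ds.length *
            (S0 w ^ 2 * ENNReal.ofReal ((ds.map (bd C m w Λ)).prod)) := by
            gcongr
        _ ≤ (qx⁻¹) ^ ds.length * (S0 w ^ 2 *
            (ENNReal.ofReal K0 * ENNReal.ofReal ((ds.map (wt1 C m w Λ)).prod))) := by
            gcongr
        _ = _ := by ring
    · rw [iv_f hb]
      exact zero_le
  have hgeo : ∑ j ∈ range (100 * N + 2 + 1), (∑' d, f d) ^ j ≤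
      ENNReal.ofReal ((100 * N + 3) * D ^ (100 * N + 2)) := by
    calc ∑ j ∈ range (100 * N + 2 + 1), (∑' d, f d) ^ j ≤
          ∑ _j ∈ range (100 * N + 2 + 1), ENNReal.ofReal (D ^ (100 * N + 2)) := by
          apply Finset.sum_le_sum
          intro j hj
          rw [mem_range] at hj
          calc (∑' d, f d) ^ j ≤ (ENNReal.ofReal D) ^ j := by gcongr
            _ = ENNReal.ofReal (D ^ j) := (ENNReal.ofReal_pow (by linarith) _).symm
            _ ≤ _ := ENNReal.ofReal_le_ofReal (pow_le_pow_right₀ hD1 (by omega))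
      _ = ENNReal.ofReal ((100 * N + 3) * D ^ (100 * N + 2)) := by
          rw [Finset.sum_const, card_range, nsmul_eq_mul, ENNReal.ofReal_mul (by positivity)]
          congr 1
          rw [← ENNReal.ofReal_natCast]
          congr 1
          push_cast
          ring
  -- the final estimate
  have hfin : K0 * ((100 * N + 3) * D ^ (100 * N + 2)) ≤
      103 * D ^ 2 * Real.exp (-(N : ℝ)) := by
    have hNr : (1 : ℝ) ≤ N := by exact_mod_cast hN
    have e1 : (100 * (N : ℝ) + 3) ≤ 103 * Real.exp N := by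
      have := Real.add_one_le_exp (N : ℝ)
      linarith
    set R : ℝ := Real.exp 1003 * D ^ 100 with hR
    have hR1 : 1 ≤ R := by
      have a1 : (1 : ℝ) ≤ Real.exp 1003 := Real.one_le_exp (by norm_num)
      have a2 : (1 : ℝ) ≤ D ^ 100 := one_le_pow₀ hD1
      calc (1 : ℝ) = 1 * 1 := by ring
        _ ≤ _ := mul_le_mul a1 a2 zero_le_one (by positivity)
    have e2 : R ^ N ≤ Y ^ g := by
      calc R ^ N ≤ R ^ (24 * g) := pow_le_pow_right₀ hR1 hNg
        _ = (R ^ 24) ^ g := by rw [pow_mul]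
        _ ≤ Y ^ g := pow_le_pow_left₀ (by positivity) hkey _
    have e3 : R ^ N = Real.exp (1003 * N) * D ^ (100 * N) := by
      rw [hR, mul_pow, ← pow_mul]
      congr 1
      rw [← Real.exp_nat_mul]
      congr 1
      ring
    rw [e3] at e2
    have hYg : 0 < Y ^ g := by positivity
    have e4 : (Y ^ g)⁻¹ * (Real.exp (1003 * N) * D ^ (100 * N)) ≤ 1 := by
      rw [inv_mul_le_iff₀ hYg, mul_one]
      exact e2
    have e5 : Real.exp (1001 * N) * Real.exp N = Real.exp (1003 * N) * Real.exp (-(N : ℝ)) := by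
      rw [← Real.exp_add, ← Real.exp_add]
      congr 1
      ring
    calc K0 * ((100 * N + 3) * D ^ (100 * N + 2)) ≤
          K0 * ((103 * Real.exp N) * D ^ (100 * N + 2)) := by
          apply mul_le_mul_of_nonneg_left _ hK0pos
          exact mul_le_mul_of_nonneg_right e1 (by positivity)
      _ = 103 * D ^ 2 * ((Y ^ g)⁻¹ * (Real.exp (1001 * N) * Real.exp N * D ^ (100 * N))) := by
          rw [hK0, pow_add]
          ring
      _ = 103 * D ^ 2 * Real.exp (-(N : ℝ)) *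
          ((Y ^ g)⁻¹ * (Real.exp (1003 * N) * D ^ (100 * N))) := by
          rw [e5]
          ring
      _ ≤ 103 * D ^ 2 * Real.exp (-(N : ℝ)) * 1 :=
          mul_le_mul_of_nonneg_left e4 (by positivity)
      _ = _ := by ring
  calc ∑' ds : List LD, iv (Bud w Λ N g ds) ((qx⁻¹) ^ ds.length * ZC n w Λ A ds 0 []) ≤
        ∑' ds : List LD, (S0 w ^ 2 * ENNReal.ofReal K0) *
          iv (ds.length ≤ 100 * N + 2) ((ds.map f).prod) := ENNReal.tsum_le_tsum hterm
    _ = (S0 w ^ 2 * ENNReal.ofReal K0) * ∑' ds : List LD,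
          iv (ds.length ≤ 100 * N + 2) ((ds.map f).prod) := ENNReal.tsum_mul_left
    _ ≤ (S0 w ^ 2 * ENNReal.ofReal K0) *
          ENNReal.ofReal ((100 * N + 3) * D ^ (100 * N + 2)) := by
        gcongr
        exact (tsum_len_le f _).trans hgeo
    _ = S0 w ^ 2 * ENNReal.ofReal (K0 * ((100 * N + 3) * D ^ (100 * N + 2))) := by
        rw [mul_assoc, ← ENNReal.ofReal_mul hK0pos]
    _ ≤ _ := by
        gcongr

end Pool.Agent.Helper60.FP
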